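import Mathlib

/-!
# MP_46a37f_co : multiplicities in the images of `E_k`
-/

namespace Pool.Agent.Results.MP_46a37f_co.SixEqualities

open Finset

/-- `E k s` is the multiset of the products of the `k`-element sub-multisets of `s` (the summands of
`e_k` at the parts). -/
def E (k : ℕ) (s : Multiset ℕ) : Multiset ℕ := (s.powersetCard k).map Multiset.prod

/-- `N_j(n)`: the number of parts equal to `j` in all partitions of `n`. -/
def N (j n : ℕ) : ℤ := ∑ π : n.Partition, (π.parts.count j : ℤ)

/-- `I_k(n)`: the set of the `E_k(λ)`, `λ` a partition of `n` with at least `k` parts. -/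
def I (k n : ℕ) : Finset (Multiset ℕ) :=
  (Finset.univ.filter (fun π : n.Partition => k ≤ π.parts.card)).image (fun π => E k π.parts)

/-- `R_{k,j}(n)`: the number of parts equal to `j` in all members of `I_k(n)`. -/
def R (k j n : ℕ) : ℤ := ∑ μ ∈ I k n, (μ.count j : ℤ)

theorem E_zero (s : Multiset ℕ) : E 0 s = {1} := by simp [E]

theorem E_succ_nil (k : ℕ) : E (k + 1) 0 = 0 := by
  rw [E, Multiset.powersetCard_zero_right]; rfl

theorem filt_pos (a x : ℕ) (s : Multiset ℕ) (h : a < x) :
    (a ::ₘ s).filter (· < x) = a ::ₘ s.filter (· < x) := Multiset.filter_cons_of_pos (p := (· < x)) s h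

theorem filt_neg (a x : ℕ) (s : Multiset ℕ) (h : ¬ a < x) :
    (a ::ₘ s).filter (· < x) = s.filter (· < x) := Multiset.filter_cons_of_neg (p := (· < x)) s h

theorem E_cons (k a : ℕ) (s : Multiset ℕ) :
    E (k + 1) (a ::ₘ s) = E (k + 1) s + (E k s).map (fun y => a * y) := by
  simp [E, Multiset.powersetCard_cons, Multiset.map_map]

theorem count_cons_mul (k a y : ℕ) (ha : 0 < a) (s : Multiset ℕ) :
    (E (k + 1) (a ::ₘ s)).count (a * y) = (E (k + 1) s).count (a * y) + (E k s).count y := by
  rw [E_cons, Multiset.count_add,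
    Multiset.count_map_eq_count' (fun y => a * y) _ (fun u v h => Nat.eq_of_mul_eq_mul_left ha h)]

theorem count_cons_not_dvd (k a x : ℕ) (h : ¬ a ∣ x) (s : Multiset ℕ) :
    (E (k + 1) (a ::ₘ s)).count x = (E (k + 1) s).count x := by
  rw [E_cons, Multiset.count_add, Multiset.count_eq_zero_of_notMem (s := (E k s).map _)]
  · rfl
  · intro hm
    obtain ⟨y, _, hy⟩ := Multiset.mem_map.1 hm
    exact h ⟨y, hy.symm⟩

theorem pos_of_mem (k : ℕ) (s : Multiset ℕ) (hs : ∀ a ∈ s, 0 < a) : ∀ x ∈ E k s, 0 < x := by
  intro x hx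
  obtain ⟨t, ht, rfl⟩ := Multiset.mem_map.1 hx
  have ht' := (Multiset.mem_powersetCard.1 ht).1
  apply Nat.pos_of_ne_zero
  intro h0
  have := Multiset.prod_eq_zero_iff.1 h0
  exact absurd (hs 0 (Multiset.mem_of_le ht' this)) (lt_irrefl 0)

theorem count_zero (k : ℕ) (s : Multiset ℕ) (hs : ∀ a ∈ s, 0 < a) : (E k s).count 0 = 0 :=
  Multiset.count_eq_zero_of_notMem (fun h => absurd (pos_of_mem k s hs 0 h) (lt_irrefl 0))

/-- a part larger than `x` does not matter for the multiplicity of `x` -/
theorem count_cons_gt (k a x : ℕ) (h : x < a) (s : Multiset ℕ) (hs : ∀ a ∈ s, 0 < a) :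
    (E (k + 1) (a ::ₘ s)).count x = (E (k + 1) s).count x := by
  by_cases hd : a ∣ x
  · obtain ⟨z, rfl⟩ := hd
    rcases Nat.eq_zero_or_pos z with rfl | hz
    · rw [count_cons_mul k a 0 (by omega), count_zero k s hs]; rfl
    · have : a ≤ a * z := Nat.le_mul_of_pos_right a hz
      omega
  · exact count_cons_not_dvd k a x hd s

theorem count_one (s : Multiset ℕ) (hs : ∀ a ∈ s, 0 < a) :
    ∀ k, (E k s).count 1 = (s.count 1).choose k := by
  induction s using Multiset.induction with
  | empty =>
    intro k
    cases k with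
    | zero => simp [E_zero]
    | succ k => simp [E_succ_nil]
  | cons a s ih =>
    have hs' : ∀ a ∈ s, 0 < a := fun b hb => hs b (Multiset.mem_cons_of_mem hb)
    have ha : 0 < a := hs a (Multiset.mem_cons_self a s)
    intro k
    cases k with
    | zero => simp [E_zero]
    | succ k =>
      rcases eq_or_ne a 1 with rfl | h1
      · have := count_cons_mul k 1 1 one_pos s
        rw [one_mul] at this
        rw [this, ih hs', ih hs', Multiset.count_cons_self, Nat.choose_succ_succ]
        ring
      · rw [count_cons_gt k a 1 (by omega) s hs', ih hs', Multiset.count_cons_of_ne (Ne.symm h1)]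

theorem count_filter_lt (x : ℕ) (s : Multiset ℕ) (hs : ∀ a ∈ s, 0 < a) :
    ∀ k y, y < x → (E k s).count y = (E k (s.filter (· < x))).count y := by
  induction s using Multiset.induction with
  | empty => intro k y _; simp
  | cons a s ih =>
    have hs' : ∀ a ∈ s, 0 < a := fun b hb => hs b (Multiset.mem_cons_of_mem hb)
    have ha : 0 < a := hs a (Multiset.mem_cons_self a s)
    have hf : ∀ b ∈ s.filter (· < x), 0 < b := fun b hb => hs' b (Multiset.mem_of_mem_filter hb)
    intro k y hy
    cases k with
    | zero => simp [E_zero]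
    | succ k =>
      by_cases hax : a < x
      · rw [filt_pos _ _ _ hax]
        by_cases hd : a ∣ y
        · obtain ⟨z, rfl⟩ := hd
          have hz : z < x := lt_of_le_of_lt (Nat.le_mul_of_pos_left z ha) hy
          rw [count_cons_mul k a z ha, count_cons_mul k a z ha, ih hs' _ _ hy, ih hs' _ _ hz]
        · rw [count_cons_not_dvd k a y hd, count_cons_not_dvd k a y hd, ih hs' _ _ hy]
      · rw [filt_neg _ _ _ hax, count_cons_gt k a y (by omega) s hs', ih hs' _ _ hy]

/-- the main formula: the multiplicity of `x ≥ 2` in `E_{k+1}` -/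
theorem count_formula (x : ℕ) (hx : 2 ≤ x) (s : Multiset ℕ) (hs : ∀ a ∈ s, 0 < a) :
    ∀ k, (E (k + 1) s).count x =
      (E (k + 1) (s.filter (· < x))).count x + s.count x * (s.count 1).choose k := by
  induction s using Multiset.induction with
  | empty => intro k; simp
  | cons a s ih =>
    have hs' : ∀ a ∈ s, 0 < a := fun b hb => hs b (Multiset.mem_cons_of_mem hb)
    have ha : 0 < a := hs a (Multiset.mem_cons_self a s)
    intro k
    rcases lt_trichotomy a x with hax | rfl | hax
    · rw [filt_pos _ _ _ hax]
      rcases eq_or_ne a 1 with rfl | h1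
      · have e1 := count_cons_mul k 1 x one_pos s
        have e2 := count_cons_mul k 1 x one_pos (s.filter (· < x))
        rw [one_mul] at e1 e2
        rw [e1, e2, ih hs' k, Multiset.count_cons_self,
          Multiset.count_cons_of_ne (by omega : x ≠ 1)]
        cases k with
        | zero => simp [E_zero]; ring
        | succ k => rw [ih hs' k, Nat.choose_succ_succ]; ring
      · rw [Multiset.count_cons_of_ne (Ne.symm h1), Multiset.count_cons_of_ne (by omega : x ≠ a)]
        by_cases hd : a ∣ x
        · obtain ⟨z, rfl⟩ := hd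
          have hz : z < a * z := by
            have : 0 < z := Nat.pos_of_ne_zero (by rintro rfl; omega)
            nlinarith [show 2 ≤ a by omega]
          rw [count_cons_mul k a z ha, count_cons_mul k a z ha, ih hs' k,
            count_filter_lt (a * z) s hs' k z hz]
          ring
        · rw [count_cons_not_dvd k a x hd, count_cons_not_dvd k a x hd, ih hs' k]
    · rw [filt_neg _ _ _ (lt_irrefl a)]
      have e1 := count_cons_mul k a 1 ha s
      rw [mul_one] at e1
      rw [e1, ih hs' k, count_one s hs' k, Multiset.count_cons_self,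
        Multiset.count_cons_of_ne (by omega : (1 : ℕ) ≠ a)]
      ring
    · rw [filt_neg _ _ _ (by omega : ¬ a < x), count_cons_gt k a x hax s hs', ih hs' k,
        Multiset.count_cons_of_ne (by omega : x ≠ a), Multiset.count_cons_of_ne (by omega : 1 ≠ a)]

theorem choose_inj (k m m' : ℕ) (h : k ≤ m) (h' : k ≤ m') (e : m.choose (k + 1) = m'.choose (k + 1)) :
    m = m' := by
  have key : ∀ a b : ℕ, k ≤ a → a < b → a.choose (k + 1) < b.choose (k + 1) := by
    intro a b ha hab
    have h1 : (a + 1).choose (k + 1) ≤ b.choose (k + 1) := Nat.choose_le_choose _ hab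
    have h2 : 0 < a.choose k := Nat.choose_pos ha
    rw [Nat.choose_succ_succ'] at h1
    omega
  rcases lt_trichotomy m m' with h1 | h1 | h1
  · have := key m m' h h1; omega
  · exact h1
  · have := key m' m h' h1; omega

/-- `E_{k+1}` is injective on the multisets with at least `k` ones. -/
theorem E_inj (k : ℕ) (s t : Multiset ℕ) (hs : ∀ a ∈ s, 0 < a) (ht : ∀ a ∈ t, 0 < a)
    (h1 : k ≤ s.count 1) (h2 : k ≤ t.count 1) (e : E (k + 1) s = E (k + 1) t) : s = t := by
  have hm : s.count 1 = t.count 1 := by
    apply choose_inj k _ _ h1 h2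
    rw [← count_one s hs, ← count_one t ht, e]
  ext x
  induction x using Nat.strong_induction_on with
  | _ x ih =>
    rcases Nat.lt_or_ge x 2 with hx | hx
    · interval_cases x
      · rw [Multiset.count_eq_zero_of_notMem (fun h => absurd (hs 0 h) (lt_irrefl 0)),
          Multiset.count_eq_zero_of_notMem (fun h => absurd (ht 0 h) (lt_irrefl 0))]
      · exact hm
    · have hf : s.filter (· < x) = t.filter (· < x) := by
        ext y
        rw [Multiset.count_filter, Multiset.count_filter]
        split_ifs with hy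
        · exact ih y hy
        · rfl
      have a1 := count_formula x hx s hs k
      have a2 := count_formula x hx t ht k
      rw [e, a2, hf, hm] at a1
      have h3 : 0 < (t.count 1).choose k := Nat.choose_pos h2
      have h4 : t.count x * (t.count 1).choose k = s.count x * (t.count 1).choose k := by omega
      exact (Nat.eq_of_mul_eq_mul_right h3 h4).symm

theorem count_prime (p : ℕ) (hp : p.Prime) (s : Multiset ℕ) (hs : ∀ a ∈ s, 0 < a) (k : ℕ) :
    (E (k + 1) s).count p = s.count p * (s.count 1).choose k := by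
  rw [count_formula p hp.two_le s hs k, Multiset.count_eq_zero_of_notMem, zero_add]
  intro hm
  obtain ⟨t, ht, hp'⟩ := Multiset.mem_map.1 hm
  have ht' := (Multiset.mem_powersetCard.1 ht).1
  have hd : p ∣ t.prod := by rw [hp']
  obtain ⟨a, hat, hpa⟩ := Prime.exists_mem_multiset_dvd (Nat.Prime.prime hp) hd
  have h1 := Multiset.mem_of_le ht' hat
  have h2 := (Multiset.mem_filter.1 h1)
  exact absurd (Nat.le_of_dvd (hs a h2.1) hpa) (by omega)

/-- sums over an image -/
theorem sum_image_ne_zero {α β : Type*} [DecidableEq β] (S : Finset α) (f : α → β) (h : β → ℤ)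
    (hi : ∀ a ∈ S, ∀ b ∈ S, h (f a) ≠ 0 → f a = f b → a = b) :
    ∑ b ∈ S.image f, h b = ∑ a ∈ S, h (f a) := by
  classical
  rw [← Finset.sum_filter_ne_zero (s := S)]
  rw [← Finset.sum_image (f := h) (g := f) (s := S.filter fun a => h (f a) ≠ 0)]
  · symm
    apply Finset.sum_subset
    · exact Finset.image_subset_image (Finset.filter_subset _ _)
    · intro b hb hnb
      by_contra hne
      obtain ⟨a, ha, rfl⟩ := Finset.mem_image.1 hb
      exact hnb (Finset.mem_image_of_mem f (Finset.mem_filter.2 ⟨ha, hne⟩))
  · intro a ha b hb hab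
    simp only [Finset.coe_filter, Set.mem_ofPred_eq] at ha hb
    exact hi a ha.1 b hb.1 ha.2 hab

theorem R_eq (k j n : ℕ) (hi : ∀ π π' : n.Partition, (E k π.parts).count j ≠ 0 →
    E k π.parts = E k π'.parts → π = π') :
    R k j n = ∑ π : n.Partition, ((E k π.parts).count j : ℤ) := by
  refine (sum_image_ne_zero (Finset.univ.filter (fun π : n.Partition => k ≤ π.parts.card))
    (fun π => E k π.parts) (fun μ : Multiset ℕ => (μ.count j : ℤ)) ?_).trans ?_
  · intro a _ b _ h0 hab
    exact hi a b (by exact_mod_cast h0) hab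
  · apply Finset.sum_subset (Finset.filter_subset _ _)
    intro π _ hπ
    have : ¬ k ≤ π.parts.card := fun h => hπ (Finset.mem_filter.2 ⟨Finset.mem_univ _, h⟩)
    have h0 : E k π.parts = 0 := by
      rw [E, Multiset.powersetCard_eq_empty _ (by omega)]; rfl
    simp [h0]

theorem R_prime (k p n : ℕ) (hp : p.Prime) :
    R (k + 1) p n = ∑ π : n.Partition, (π.parts.count p * (π.parts.count 1).choose k : ℤ) := by
  rw [R_eq]
  · apply Finset.sum_congr rfl
    intro π _
    rw [count_prime p hp π.parts (fun a ha => π.parts_pos ha) k]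
    push_cast; rfl
  · intro π π' h0 e
    have h1 := h0
    rw [count_prime p hp π.parts (fun a ha => π.parts_pos ha) k] at h1
    have h2 := h0
    rw [e, count_prime p hp π'.parts (fun a ha => π'.parts_pos ha) k] at h2
    apply Nat.Partition.ext
    refine E_inj k _ _ (fun a ha => π.parts_pos ha) (fun a ha => π'.parts_pos ha) ?_ ?_ e
    · by_contra hc
      exact h1 (by rw [Nat.choose_eq_zero_of_lt (by omega), mul_zero])
    · by_contra hc
      exact h2 (by rw [Nat.choose_eq_zero_of_lt (by omega), mul_zero])

theorem R_one (k n : ℕ) :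
    R (k + 1) 1 n = ∑ π : n.Partition, (((π.parts.count 1).choose (k + 1) : ℕ) : ℤ) := by
  rw [R_eq]
  · apply Finset.sum_congr rfl
    intro π _
    rw [count_one π.parts (fun a ha => π.parts_pos ha)]
  · intro π π' h0 e
    have h1 := h0
    rw [count_one π.parts (fun a ha => π.parts_pos ha)] at h1
    have h2 := h0
    rw [e, count_one π'.parts (fun a ha => π'.parts_pos ha)] at h2
    apply Nat.Partition.ext
    refine E_inj k _ _ (fun a ha => π.parts_pos ha) (fun a ha => π'.parts_pos ha) ?_ ?_ e
    · by_contra hc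
      exact h1 (Nat.choose_eq_zero_of_lt (by omega))
    · by_contra hc
      exact h2 (Nat.choose_eq_zero_of_lt (by omega))

/-- adding a part `a` -/
def consP (a : ℕ) (ha : 0 < a) {n : ℕ} (π : n.Partition) : (n + a).Partition where
  parts := a ::ₘ π.parts
  parts_pos := by
    intro i hi
    rcases Multiset.mem_cons.1 hi with rfl | h
    · exact ha
    · exact π.parts_pos h
  parts_sum := by rw [Multiset.sum_cons, π.parts_sum, add_comm]

theorem sum_cons_part (a : ℕ) (ha : 0 < a) (n : ℕ) (φ : Multiset ℕ → ℤ)
    (h0 : ∀ s, a ∉ s → φ s = 0) :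
    ∑ π : (n + a).Partition, φ π.parts = ∑ π : n.Partition, φ (a ::ₘ π.parts) := by
  symm
  refine Finset.sum_of_injOn (consP a ha) ?_ (fun _ _ => Finset.mem_coe.2 (Finset.mem_univ _)) ?_ ?_
  · intro π _ π' _ h
    have := congrArg Nat.Partition.parts h
    exact Nat.Partition.ext ((Multiset.cons_inj_right a).1 this)
  · intro π _ hπ
    apply h0
    intro hmem
    apply hπ
    obtain ⟨t, ht⟩ := Multiset.exists_cons_of_mem hmem
    refine ⟨⟨t, ?_, ?_⟩, Finset.mem_coe.2 (Finset.mem_univ _), ?_⟩
    · intro i hi
      exact π.parts_pos (by rw [ht]; exact Multiset.mem_cons_of_mem hi)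
    · have := π.parts_sum
      rw [ht, Multiset.sum_cons] at this
      omega
    · exact Nat.Partition.ext ht.symm
  · intro π _; rfl

/-- the sums `∑ ψ C(m_1, j)` -/
def S (ψ : Multiset ℕ → ℤ) (j n : ℕ) : ℤ :=
  ∑ π : n.Partition, ψ π.parts * (((π.parts.count 1).choose j : ℕ) : ℤ)

theorem S_succ (ψ : Multiset ℕ → ℤ) (hψ : ∀ s, ψ (1 ::ₘ s) = ψ s) (j n : ℕ) :
    S ψ (j + 1) (n + 1) = S ψ (j + 1) n + S ψ j n := by
  unfold S
  rw [sum_cons_part 1 one_pos n (fun s => ψ s * (((s.count 1).choose (j + 1) : ℕ) : ℤ)),
    ← Finset.sum_add_distrib]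
  · apply Finset.sum_congr rfl
    intro π _
    rw [Multiset.count_cons_self, Nat.choose_succ_succ, hψ]
    push_cast; ring
  · intro s hs
    rw [Multiset.count_eq_zero_of_notMem hs]
    simp

theorem fwd_S (ψ : Multiset ℕ → ℤ) (hψ : ∀ s, ψ (1 ::ₘ s) = ψ s) (j i : ℕ) :
    (fwdDiff 1)^[j] (S ψ (i + j)) = S ψ i := by
  induction j with
  | zero => rfl
  | succ j ih =>
    rw [Function.iterate_succ_apply]
    have : fwdDiff 1 (S ψ (i + (j + 1))) = S ψ (i + j) := by
      funext n
      rw [fwdDiff, ← add_assoc, S_succ ψ hψ]; ring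
    rw [this, ih]

theorem D_congr (j : ℕ) : ∀ (f g : ℕ → ℤ) (n : ℕ), (∀ i ≤ j, f (n + i) = g (n + i)) →
    (fwdDiff 1)^[j] f n = (fwdDiff 1)^[j] g n := by
  induction j with
  | zero => intro f g n h; simpa using h 0 le_rfl
  | succ j ih =>
    intro f g n h
    rw [Function.iterate_succ_apply, Function.iterate_succ_apply]
    apply ih
    intro i hi
    rw [fwdDiff, fwdDiff, h i (by omega), add_assoc, h (i + 1) (by omega)]

theorem D_add (j : ℕ) : ∀ (f g : ℕ → ℤ) (n : ℕ),
    (fwdDiff 1)^[j] (fun n => f n + g n) n = (fwdDiff 1)^[j] f n + (fwdDiff 1)^[j] g n := by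
  induction j with
  | zero => intro f g n; rfl
  | succ j ih =>
    intro f g n
    have h : (fwdDiff 1 fun n => f n + g n) = fun n => fwdDiff 1 f n + fwdDiff 1 g n := by
      funext m
      simp only [fwdDiff]; ring
    rw [Function.iterate_succ_apply, Function.iterate_succ_apply, Function.iterate_succ_apply, h, ih]

theorem D_shift (j a : ℕ) : ∀ (f : ℕ → ℤ) (n : ℕ),
    (fwdDiff 1)^[j] (fun n => f (n + a)) n = (fwdDiff 1)^[j] f (n + a) := by
  induction j with
  | zero => intro f n; rfl
  | succ j ih =>
    intro f n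
    have h : (fwdDiff 1 fun n => f (n + a)) = fun n => fwdDiff 1 f (n + a) := by
      funext m
      simp only [fwdDiff]
      rw [add_right_comm]
    rw [Function.iterate_succ_apply, Function.iterate_succ_apply, h, ih]

/-! ## The case `k = 2` -/

/-- power sums -/
def ps (t : ℕ) (s : Multiset ℕ) : ℕ := (s.map (· ^ t)).sum

theorem E_one (s : Multiset ℕ) : E 1 s = s := by
  induction s using Multiset.induction with
  | empty => exact E_succ_nil 0
  | cons a s ih =>
    rw [E_cons, ih, E_zero, Multiset.map_singleton, mul_one, add_comm, Multiset.singleton_add]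

theorem ps_sq (t : ℕ) (s : Multiset ℕ) : ps t s ^ 2 = ps (2 * t) s + 2 * ps t (E 2 s) := by
  induction s using Multiset.induction with
  | empty => rw [E_succ_nil]; simp [ps]
  | cons a s ih =>
    rw [E_cons, E_one]
    have h1 : ps t (Multiset.map (fun y => a * y) s) = a ^ t * ps t s := by
      unfold ps
      rw [Multiset.map_map, ← Multiset.sum_map_mul_left]
      congr 1
      apply Multiset.map_congr rfl
      intro x _
      simp [mul_pow]
    have h2 : ∀ u v : Multiset ℕ, ps t (u + v) = ps t u + ps t v := by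
      intro u v; simp [ps]
    have h3 : ∀ r, ps r (a ::ₘ s) = a ^ r + ps r s := by
      intro r; simp [ps]
    rw [h2, h1, h3, h3]
    have h4 : a ^ (2 * t) = a ^ t * a ^ t := by ring
    rw [h4]
    nlinarith [ih]

theorem ps_pow (s t : Multiset ℕ) (e : E 2 s = E 2 t) (h : ps 1 s = ps 1 t) :
    ∀ i, ps (2 ^ i) s = ps (2 ^ i) t := by
  intro i
  induction i with
  | zero => simpa using h
  | succ i ih =>
    have h1 := ps_sq (2 ^ i) s
    have h2 := ps_sq (2 ^ i) t
    rw [pow_succ, mul_comm]
    rw [ih, e] at h1
    omega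

theorem growth (x y c : ℕ) (hx : 0 < x) (hxy : x < y) : ∃ i, c * x ^ (2 ^ i) < y ^ (2 ^ i) := by
  have h1 : Filter.Tendsto (fun i : ℕ => 2 ^ i) Filter.atTop Filter.atTop :=
    tendsto_pow_atTop_atTop_of_one_lt one_lt_two
  have h2 : Filter.Tendsto (fun i : ℕ => ((y : ℝ) / x) ^ i) Filter.atTop Filter.atTop := by
    apply tendsto_pow_atTop_atTop_of_one_lt
    rw [one_lt_div (by exact_mod_cast hx)]
    exact_mod_cast hxy
  obtain ⟨i, hi⟩ := ((h2.comp h1).eventually_gt_atTop (c : ℝ)).exists
  refine ⟨i, ?_⟩
  simp only [Function.comp] at hi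
  rw [div_pow, lt_div_iff₀ (by positivity)] at hi
  exact_mod_cast hi

theorem ps_le (s : Multiset ℕ) (x t : ℕ) (h : ∀ a ∈ s, a ≤ x) : ps t s ≤ s.card * x ^ t := by
  unfold ps
  have := Multiset.sum_le_card_nsmul (s.map (· ^ t)) (x ^ t) (by
    intro y hy
    obtain ⟨a, ha, rfl⟩ := Multiset.mem_map.1 hy
    exact Nat.pow_le_pow_left (h a ha) t)
  simpa using this

theorem le_ps (s : Multiset ℕ) (y t : ℕ) (h : y ∈ s) : y ^ t ≤ ps t s := by
  unfold ps
  exact Multiset.single_le_sum (fun _ _ => Nat.zero_le _) _ (Multiset.mem_map_of_mem _ h)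

theorem exists_max (s : Multiset ℕ) (h : s ≠ 0) : ∃ x ∈ s, ∀ a ∈ s, a ≤ x := by
  have hne : s.toFinset.Nonempty := by
    obtain ⟨a, ha⟩ := Multiset.exists_mem_of_ne_zero h
    exact ⟨a, Multiset.mem_toFinset.2 ha⟩
  obtain ⟨x, hx, hm⟩ := Finset.exists_max_image s.toFinset id hne
  exact ⟨x, Multiset.mem_toFinset.1 hx, fun a ha => hm a (Multiset.mem_toFinset.2 ha)⟩

theorem max_le (s t : Multiset ℕ) (h : ∀ i, ps (2 ^ i) s = ps (2 ^ i) t) (x y : ℕ)
    (hx0 : 0 < x) (hx : ∀ a ∈ s, a ≤ x) (hy : y ∈ t) : y ≤ x := by
  by_contra hc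
  obtain ⟨i, hi⟩ := growth x y s.card hx0 (by omega)
  have h1 := ps_le s x (2 ^ i) hx
  have h2 := le_ps t y (2 ^ i) hy
  have h3 := h i
  omega

theorem eq_of_ps : ∀ (n : ℕ) (s t : Multiset ℕ), s.card = n → (∀ a ∈ s, 0 < a) → (∀ a ∈ t, 0 < a) →
    (∀ i, ps (2 ^ i) s = ps (2 ^ i) t) → s = t := by
  intro n
  induction n with
  | zero =>
    intro s t hc _ ht h
    have hs0 : s = 0 := Multiset.card_eq_zero.1 hc
    subst hs0
    by_contra hne
    obtain ⟨a, ha⟩ := Multiset.exists_mem_of_ne_zero (Ne.symm hne)
    have h1 := le_ps t a (2 ^ 0) ha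
    have h2 := h 0
    have h3 := ht a ha
    simp [ps] at h1 h2
    omega
  | succ n ih =>
    intro s t hc hs ht h
    have hs0 : s ≠ 0 := by rintro rfl; simp at hc
    obtain ⟨x, hx, hxm⟩ := exists_max s hs0
    have ht0 : t ≠ 0 := by
      rintro rfl
      have h1 := le_ps s x (2 ^ 0) hx
      have h2 := h 0
      have h3 := hs x hx
      simp [ps] at h1 h2
      omega
    obtain ⟨y, hy, hym⟩ := exists_max t ht0
    have hxy : x = y := by
      apply le_antisymm
      · exact max_le t s (fun i => (h i).symm) y x (ht y hy) hym hx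
      · exact max_le s t h x y (hs x hx) hxm hy
    subst hxy
    obtain ⟨s', rfl⟩ := Multiset.exists_cons_of_mem hx
    obtain ⟨t', rfl⟩ := Multiset.exists_cons_of_mem hy
    congr 1
    apply ih s' t' (by simpa using hc) (fun a ha => hs a (Multiset.mem_cons_of_mem ha))
      (fun a ha => ht a (Multiset.mem_cons_of_mem ha))
    intro i
    have := h i
    simp only [ps, Multiset.map_cons, Multiset.sum_cons] at this
    simp only [ps]
    omega

/-- `E_2` is injective on the partitions of `n`. -/
theorem E_two_inj (n : ℕ) (π π' : n.Partition) (e : E 2 π.parts = E 2 π'.parts) : π = π' := by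
  apply Nat.Partition.ext
  refine eq_of_ps _ _ _ rfl (fun a ha => π.parts_pos ha) (fun a ha => π'.parts_pos ha)
    (ps_pow _ _ e ?_)
  simp only [ps, pow_one, Multiset.map_id']
  rw [π.parts_sum, π'.parts_sum]

/-! ## Multiplicities of products of two primes -/

theorem count_pp (p : ℕ) (hp : p.Prime) (s : Multiset ℕ) (hs : ∀ a ∈ s, 0 < a) : ∀ k,
    (E (k + 2) s).count (p * p) =
      s.count (p * p) * (s.count 1).choose (k + 1) + (s.count p).choose 2 * (s.count 1).choose k := by
  have hp2 := hp.two_le
  have hpp : p < p * p := by nlinarith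
  induction s using Multiset.induction with
  | empty => intro k; rw [E_succ_nil]; simp
  | cons a s ih =>
    have hs' : ∀ a ∈ s, 0 < a := fun b hb => hs b (Multiset.mem_cons_of_mem hb)
    have ha : 0 < a := hs a (Multiset.mem_cons_self a s)
    intro k
    by_cases hd : a ∣ p * p
    · have h9 : a = 1 ∨ a = p ∨ a = p * p := by
        rw [← pow_two] at hd
        obtain ⟨i, hi, rfl⟩ := (Nat.dvd_prime_pow hp).1 hd
        interval_cases i
        · left; simp
        · right; left; simp
        · right; right; ring
      rcases h9 with rfl | rfl | rfl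
      · have e := count_cons_mul (k + 1) 1 (p * p) one_pos s
        rw [one_mul] at e
        rw [e, ih hs', Multiset.count_cons_self, Multiset.count_cons_of_ne (by omega : p * p ≠ 1),
          Multiset.count_cons_of_ne (by omega : p ≠ 1)]
        cases k with
        | zero =>
          rw [zero_add, E_one]
          simp
          ring
        | succ k => rw [ih hs', Nat.choose_succ_succ' (s.count 1) (k + 1), Nat.choose_succ_succ' (s.count 1) k]; ring
      · rw [count_cons_mul (k + 1) a a ha, ih hs', count_prime a hp s hs',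
          Multiset.count_cons_self, Multiset.count_cons_of_ne (by omega : a * a ≠ a),
          Multiset.count_cons_of_ne (by omega : 1 ≠ a), Nat.choose_succ_succ', Nat.choose_one_right]
        ring
      · have e := count_cons_mul (k + 1) (p * p) 1 ha s
        rw [mul_one] at e
        rw [e, ih hs', count_one s hs', Multiset.count_cons_self,
          Multiset.count_cons_of_ne (by omega : p ≠ p * p),
          Multiset.count_cons_of_ne (by omega : 1 ≠ p * p)]
        ring
    · have h1 : a ≠ 1 := by rintro rfl; simp at hd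
      have h3 : a ≠ p := by rintro rfl; exact hd (dvd_mul_left _ _)
      have h9 : a ≠ p * p := by rintro rfl; exact hd dvd_rfl
      rw [count_cons_not_dvd (k + 1) a (p * p) hd, ih hs', Multiset.count_cons_of_ne h1.symm,
        Multiset.count_cons_of_ne h3.symm, Multiset.count_cons_of_ne h9.symm]

theorem count_pq (p r : ℕ) (hp : p.Prime) (hr : r.Prime) (hpr : p < r) (s : Multiset ℕ)
    (hs : ∀ a ∈ s, 0 < a) : ∀ k,
    (E (k + 2) s).count (p * r) =
      s.count (p * r) * (s.count 1).choose (k + 1) +
        s.count p * s.count r * (s.count 1).choose k := by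
  have hp2 := hp.two_le
  have hr2 := hr.two_le
  have hpp : p < p * r := by nlinarith
  have hrr : r < p * r := by nlinarith
  induction s using Multiset.induction with
  | empty => intro k; rw [E_succ_nil]; simp
  | cons a s ih =>
    have hs' : ∀ a ∈ s, 0 < a := fun b hb => hs b (Multiset.mem_cons_of_mem hb)
    have ha : 0 < a := hs a (Multiset.mem_cons_self a s)
    intro k
    by_cases hd : a ∣ p * r
    · have h9 : a = 1 ∨ a = p ∨ a = r ∨ a = p * r := by
        obtain ⟨x, y, hx, hy, rfl⟩ := Nat.dvd_mul.1 hd
        rcases (Nat.dvd_prime hp).1 hx with rfl | rfl <;>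
          rcases (Nat.dvd_prime hr).1 hy with rfl | rfl <;> simp
      rcases h9 with rfl | rfl | rfl | rfl
      · have e := count_cons_mul (k + 1) 1 (p * r) one_pos s
        rw [one_mul] at e
        rw [e, ih hs', Multiset.count_cons_self, Multiset.count_cons_of_ne (by omega : p * r ≠ 1),
          Multiset.count_cons_of_ne (by omega : p ≠ 1), Multiset.count_cons_of_ne (by omega : r ≠ 1)]
        cases k with
        | zero =>
          rw [zero_add, E_one]
          simp
          ring
        | succ k => rw [ih hs', Nat.choose_succ_succ' (s.count 1) (k + 1), Nat.choose_succ_succ' (s.count 1) k]; ring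
      · rw [count_cons_mul (k + 1) a r ha, ih hs', count_prime r hr s hs',
          Multiset.count_cons_self, Multiset.count_cons_of_ne (by omega : a * r ≠ a),
          Multiset.count_cons_of_ne (by omega : r ≠ a),
          Multiset.count_cons_of_ne (by omega : 1 ≠ a)]
        ring
      · have e := count_cons_mul (k + 1) a p ha s
        rw [mul_comm a p] at e
        rw [e, ih hs', count_prime p hp s hs',
          Multiset.count_cons_self, Multiset.count_cons_of_ne (by omega : p * a ≠ a),
          Multiset.count_cons_of_ne (by omega : p ≠ a),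
          Multiset.count_cons_of_ne (by omega : 1 ≠ a)]
        ring
      · have e := count_cons_mul (k + 1) (p * r) 1 ha s
        rw [mul_one] at e
        rw [e, ih hs', count_one s hs', Multiset.count_cons_self,
          Multiset.count_cons_of_ne (by omega : p ≠ p * r),
          Multiset.count_cons_of_ne (by omega : r ≠ p * r),
          Multiset.count_cons_of_ne (by omega : 1 ≠ p * r)]
        ring
    · have h1 : a ≠ 1 := by rintro rfl; simp at hd
      have h3 : a ≠ p := by rintro rfl; exact hd (dvd_mul_right _ _)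
      have h4 : a ≠ r := by rintro rfl; exact hd (dvd_mul_left _ _)
      have h9 : a ≠ p * r := by rintro rfl; exact hd dvd_rfl
      rw [count_cons_not_dvd (k + 1) a (p * r) hd, ih hs', Multiset.count_cons_of_ne h1.symm,
        Multiset.count_cons_of_ne h3.symm, Multiset.count_cons_of_ne h4.symm,
        Multiset.count_cons_of_ne h9.symm]

/-! ## Partitions with exactly `k - 2` ones -/

theorem count_gap (u z : ℕ) (s : Multiset ℕ) (hs : ∀ a ∈ s, a = 1 ∨ u ≤ a) (h1 : 1 < z) (hz : z < u)
    (k : ℕ) : (E k s).count z = 0 := by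
  apply Multiset.count_eq_zero_of_notMem
  intro hm
  obtain ⟨t, ht, he⟩ := Multiset.mem_map.1 hm
  have ht' := (Multiset.mem_powersetCard.1 ht).1
  have : t.prod = 1 := by
    apply Multiset.prod_eq_one
    intro a ha
    rcases hs a (Multiset.mem_of_le ht' ha) with h | h
    · exact h
    · exfalso
      have : a ∣ z := he ▸ Multiset.dvd_prod ha
      have := Nat.le_of_dvd (by omega) this
      omega
  omega

theorem count_uy (u y : ℕ) (hu : 2 ≤ u) (huy : u < y) (s : Multiset ℕ)
    (hs : ∀ a ∈ s, a = 1 ∨ u ≤ a) : ∀ k,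
    (E (k + 1) s).count (u * y) = (E (k + 1) (s.filter (· < y))).count (u * y) +
      s.count y * (E k (s.filter (· < y))).count u + s.count (u * y) * (s.count 1).choose k := by
  have hy1 : y < u * y := by nlinarith
  induction s using Multiset.induction with
  | empty => intro k; simp
  | cons a s ih =>
    have hs' : ∀ a ∈ s, a = 1 ∨ u ≤ a := fun b hb => hs b (Multiset.mem_cons_of_mem hb)
    have hp' : ∀ a ∈ s, 0 < a := fun b hb => by rcases hs' b hb with h | h <;> omega
    have hp : ∀ a ∈ s.filter (· < y), 0 < a := fun b hb => hp' b (Multiset.mem_of_mem_filter hb)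
    have ha' := hs a (Multiset.mem_cons_self a s)
    have ha : 0 < a := by rcases ha' with h | h <;> omega
    have hc1 : (s.filter (· < y)).count 1 = s.count 1 := by
      rw [Multiset.count_filter, if_pos (by omega)]
    intro k
    cases k with
    | zero =>
      rw [zero_add, E_one, E_one, E_zero]
      have : Multiset.count (u * y) (Multiset.filter (· < y) (a ::ₘ s)) = 0 := by
        rw [Multiset.count_filter, if_neg (by omega)]
      rw [this]
      have : Multiset.count u ({1} : Multiset ℕ) = 0 := by
        rw [Multiset.count_singleton, if_neg (by omega)]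
      rw [this]; simp
    | succ k =>
      rcases lt_trichotomy a y with hay | rfl | hay
      · rw [filt_pos _ _ _ hay, Multiset.count_cons_of_ne (by omega : y ≠ a),
          Multiset.count_cons_of_ne (by omega : u * y ≠ a)]
        rcases ha' with rfl | hua
        · have e1 := count_cons_mul (k + 1) 1 (u * y) one_pos s
          have e2 := count_cons_mul (k + 1) 1 (u * y) one_pos (s.filter (· < y))
          have e3 := count_cons_mul k 1 u one_pos (s.filter (· < y))
          rw [one_mul] at e1 e2 e3
          rw [e1, e2, e3, ih hs', ih hs' k, Multiset.count_cons_self, Nat.choose_succ_succ']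
          ring
        · rw [Multiset.count_cons_of_ne (by omega : 1 ≠ a)]
          rcases eq_or_lt_of_le hua with rfl | hua'
          · have e3 := count_cons_mul k u 1 ha (s.filter (· < y))
            rw [mul_one] at e3
            rw [count_cons_mul (k + 1) u y ha, count_cons_mul (k + 1) u y ha, e3, ih hs',
              count_formula y (by omega) s hp' k, count_one _ hp k, hc1]
            ring
          · rw [count_cons_gt k a u hua' _ hp]
            by_cases hd : a ∣ u * y
            · obtain ⟨z, hz⟩ := hd
              have hzy : z < y := by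
                by_contra hc
                have : u * y < a * z := by nlinarith
                omega
              rw [hz, count_cons_mul (k + 1) a z ha, count_cons_mul (k + 1) a z ha, ← hz, ih hs',
                count_filter_lt y s hp' (k + 1) z hzy]
              ring
            · rw [count_cons_not_dvd _ _ _ hd, count_cons_not_dvd _ _ _ hd, ih hs']
      · rw [filt_neg _ _ _ (lt_irrefl a), Multiset.count_cons_self,
          Multiset.count_cons_of_ne (by omega : u * a ≠ a),
          Multiset.count_cons_of_ne (by omega : 1 ≠ a)]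
        have e := count_cons_mul (k + 1) a u ha s
        rw [mul_comm a u] at e
        rw [e, ih hs', count_filter_lt a s hp' (k + 1) u huy]
        ring
      · rw [filt_neg _ _ _ (by omega : ¬ a < y), Multiset.count_cons_of_ne (by omega : y ≠ a),
          Multiset.count_cons_of_ne (by omega : 1 ≠ a)]
        by_cases hau : a = u * y
        · subst hau
          have e := count_cons_mul (k + 1) (u * y) 1 ha s
          rw [mul_one] at e
          rw [e, ih hs', count_one s hp', Multiset.count_cons_self]
          ring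
        · rw [Multiset.count_cons_of_ne (Ne.symm hau)]
          by_cases hd : a ∣ u * y
          · obtain ⟨z, hz⟩ := hd
            have hz0 : z ≠ 0 := by rintro rfl; rw [mul_zero] at hz; omega
            have hz1 : z ≠ 1 := by rintro rfl; rw [mul_one] at hz; exact hau hz.symm
            have hzu : z < u := by
              by_contra hc
              have : u * y < a * z := by nlinarith
              omega
            rw [hz, count_cons_mul (k + 1) a z ha, ← hz, ih hs',
              count_gap u z s hs' (by omega) hzu (k + 1)]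
            ring
          · rw [count_cons_not_dvd _ _ _ hd, ih hs']

/-- `E_{q+2}` is injective on the multisets with exactly `q` ones and a given smallest other part
`u`, `u` a prime. -/
theorem E_inj_two (q u : ℕ) (hu : u.Prime) (s t : Multiset ℕ) (hs : ∀ a ∈ s, a = 1 ∨ u ≤ a)
    (ht : ∀ a ∈ t, a = 1 ∨ u ≤ a) (h1 : s.count 1 = q) (h2 : t.count 1 = q) (hus : u ∈ s) (hut : u ∈ t)
    (e : E (q + 2) s = E (q + 2) t) : s = t := by
  have hu2 := hu.two_le
  have ps' : ∀ a ∈ s, 0 < a := fun b hb => by rcases hs b hb with h | h <;> omega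
  have pt' : ∀ a ∈ t, 0 < a := fun b hb => by rcases ht b hb with h | h <;> omega
  have cs : 1 ≤ s.count u := Multiset.count_pos.2 hus
  have ct : 1 ≤ t.count u := Multiset.count_pos.2 hut
  have hcu : s.count u = t.count u := by
    apply choose_inj 1 _ _ cs ct
    have a1 := count_pp u hu s ps' q
    have a2 := count_pp u hu t pt' q
    rw [h1, Nat.choose_eq_zero_of_lt (by omega : q < q + 1), Nat.choose_self] at a1
    rw [h2, Nat.choose_eq_zero_of_lt (by omega : q < q + 1), Nat.choose_self, ← e] at a2
    show (s.count u).choose 2 = (t.count u).choose 2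
    omega
  ext x
  induction x using Nat.strong_induction_on with
  | _ x ih =>
    rcases lt_trichotomy x u with hx | rfl | hx
    · rcases eq_or_ne x 1 with rfl | hx1
      · rw [h1, h2]
      · rw [Multiset.count_eq_zero_of_notMem (fun h => by rcases hs x h with h | h <;> omega),
          Multiset.count_eq_zero_of_notMem (fun h => by rcases ht x h with h | h <;> omega)]
    · exact hcu
    · have hf : s.filter (· < x) = t.filter (· < x) := by
        ext y
        rw [Multiset.count_filter, Multiset.count_filter]
        split_ifs with hy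
        · exact ih y hy
        · rfl
      have a1 := count_uy u x hu2 hx s hs (q + 1)
      have a2 := count_uy u x hu2 hx t ht (q + 1)
      have hp : ∀ a ∈ t.filter (· < x), 0 < a := fun b hb => pt' b (Multiset.mem_of_mem_filter hb)
      have a3 : (E (q + 1) (t.filter (· < x))).count u = t.count u := by
        rw [count_prime u hu _ hp, Multiset.count_filter, Multiset.count_filter, if_pos hx,
          if_pos (by omega), h2, Nat.choose_self, mul_one]
      rw [h1, Nat.choose_eq_zero_of_lt (by omega : q < q + 1), hf, a3, mul_zero, add_zero] at a1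
      rw [h2, Nat.choose_eq_zero_of_lt (by omega : q < q + 1), a3, mul_zero, add_zero] at a2
      have a0 : (E (q + 1 + 1) s).count (u * x) = (E (q + 1 + 1) t).count (u * x) := by
        rw [show q + 1 + 1 = q + 2 by ring, e]
      rw [a1, a2] at a0
      have h4 : s.count x * t.count u = t.count x * t.count u := by omega
      exact Nat.eq_of_mul_eq_mul_right (by omega) h4

/-! ## The mixed case -/

theorem le_prod_of_mem (k : ℕ) (s : Multiset ℕ) (hs : ∀ a ∈ s, 0 < a) : ∀ x ∈ E k s, x ≤ s.prod := by
  intro x hx
  obtain ⟨t, ht, rfl⟩ := Multiset.mem_map.1 hx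
  have ht' := (Multiset.mem_powersetCard.1 ht).1
  obtain ⟨r, rfl⟩ := Multiset.le_iff_exists_add.1 ht'
  rw [Multiset.prod_add]
  apply Nat.le_mul_of_pos_right
  apply Nat.pos_of_ne_zero
  intro h0
  exact absurd (hs 0 (Multiset.mem_add.2 (Or.inr (Multiset.prod_eq_zero_iff.1 h0)))) (lt_irrefl 0)

theorem prod_pos' (s : Multiset ℕ) (hs : ∀ a ∈ s, 0 < a) : 0 < s.prod := by
  apply Nat.pos_of_ne_zero
  intro h0
  exact absurd (hs 0 (Multiset.prod_eq_zero_iff.1 h0)) (lt_irrefl 0)

theorem count_prod (s : Multiset ℕ) (hs : ∀ a ∈ s, 0 < a) : ∀ k, k ≤ s.card →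
    (E k s).count s.prod = (s.count 1).choose (s.card - k) := by
  induction s using Multiset.induction with
  | empty =>
    intro k hk
    have : k = 0 := by simpa using hk
    subst this
    simp [E_zero]
  | cons a s ih =>
    have hs' : ∀ a ∈ s, 0 < a := fun b hb => hs b (Multiset.mem_cons_of_mem hb)
    have ha : 0 < a := hs a (Multiset.mem_cons_self a s)
    intro k hk
    rw [Multiset.card_cons] at hk
    rw [Multiset.prod_cons, Multiset.card_cons]
    cases k with
    | zero =>
      rw [E_zero, Multiset.count_singleton, Nat.sub_zero]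
      split_ifs with h1
      · have ha1 : a = 1 := Nat.eq_one_of_mul_eq_one_right h1
        subst ha1
        rw [one_mul] at h1
        have hall : ∀ b ∈ s, b = 1 := by
          intro b hb
          have := Multiset.dvd_prod hb
          rw [h1] at this
          exact Nat.dvd_one.1 this
        rw [Multiset.count_cons_self, Multiset.count_eq_card.2 (fun b hb => (hall b hb).symm),
          Nat.choose_self]
      · symm
        apply Nat.choose_eq_zero_of_lt
        by_contra hc
        apply h1
        have h2 : (a ::ₘ s).count 1 = (a ::ₘ s).card := by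
          have := Multiset.count_le_card 1 (a ::ₘ s)
          rw [Multiset.card_cons] at *
          omega
        have h3 := Multiset.count_eq_card.1 h2
        rw [← Multiset.prod_cons]
        exact Multiset.prod_eq_one (fun b hb => (h3 b hb).symm)
    | succ k =>
      rw [count_cons_mul k a s.prod ha, ih hs' k (by omega)]
      rcases eq_or_ne a 1 with rfl | h1
      · rw [one_mul, Multiset.count_cons_self]
        rcases eq_or_lt_of_le hk with hk' | hk'
        · have h0 : E (k + 1) s = 0 := by
            rw [E, Multiset.powersetCard_eq_empty _ (by omega)]; rfl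
          rw [h0, show s.card - k = 0 by omega, show s.card + 1 - (k + 1) = 0 by omega]
          simp
        · rw [ih hs' (k + 1) (by omega)]
          obtain ⟨d, hd⟩ : ∃ d, s.card - k = d + 1 := ⟨s.card - k - 1, by omega⟩
          rw [show s.card + 1 - (k + 1) = d + 1 by omega, show s.card - (k + 1) = d by omega, hd,
            Nat.choose_succ_succ']
      · rw [Multiset.count_cons_of_ne (Ne.symm h1), show s.card + 1 - (k + 1) = s.card - k by omega,
          Multiset.count_eq_zero_of_notMem, zero_add]
        intro hm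
        have h3 := le_prod_of_mem (k + 1) s hs' _ hm
        have h4 := prod_pos' s hs'
        have h5 : 2 * s.prod ≤ a * s.prod := Nat.mul_le_mul_right _ (by omega)
        omega

theorem card_E (k : ℕ) (s : Multiset ℕ) : (E k s).card = s.card.choose k := by
  simp [E]

theorem prod_E (s : Multiset ℕ) : ∀ k, (E (k + 1) s).prod = s.prod ^ (s.card - 1).choose k := by
  induction s using Multiset.induction with
  | empty => intro k; rw [E_succ_nil]; simp
  | cons a s ih =>
    intro k
    have h1 : (Multiset.map (fun y => a * y) (E k s)).prod = a ^ (E k s).card * (E k s).prod := by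
      rw [Multiset.prod_map_mul]; simp
    rw [E_cons, Multiset.prod_add, h1, ih, card_E, Multiset.prod_cons, Multiset.card_cons,
      Nat.add_sub_cancel]
    cases k with
    | zero => rw [E_zero]; simp; ring
    | succ j =>
      rw [ih]
      rcases Nat.eq_zero_or_pos s.card with h0 | h0
      · have : s = 0 := Multiset.card_eq_zero.1 h0
        subst this
        simp
      · obtain ⟨c, hc⟩ : ∃ c, s.card = c + 1 := ⟨s.card - 1, by omega⟩
        rw [hc, Nat.add_sub_cancel, Nat.choose_succ_succ' c j, mul_pow, pow_add, pow_add]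
        ring

/-- A partition with `q + 1` ones and one with `q` ones and the same sum `n ≤ 5 q + 12` have different
`E_{q+2}`. -/
theorem no_mixed (q : ℕ) (s t : Multiset ℕ) (hs : ∀ a ∈ s, 0 < a) (ht : ∀ a ∈ t, 0 < a)
    (h1 : s.count 1 = q + 1) (h2 : t.count 1 = q) (hsum : s.sum = t.sum) (hn : s.sum ≤ 5 * q + 12)
    (hne : E (q + 2) s ≠ 0) (e : E (q + 2) s = E (q + 2) t) : False := by
  -- cardinalities
  have hcs : q + 2 ≤ s.card := by
    by_contra hc
    exact hne (by rw [E, Multiset.powersetCard_eq_empty _ (by omega)]; rfl)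
  have hct : q + 2 ≤ t.card := by
    by_contra hc
    exact hne (by rw [e, E, Multiset.powersetCard_eq_empty _ (by omega)]; rfl)
  have hcard : s.card = t.card := by
    apply choose_inj (q + 1) _ _ (by omega) (by omega)
    rw [← card_E, ← card_E]
    exact congrArg Multiset.card e
  -- the parts other than ones
  have ds : s = Multiset.replicate (q + 1) 1 + s.filter (fun a => ¬ a = 1) := by
    conv_lhs => rw [← Multiset.filter_add_not (fun a => a = 1) s]
    rw [Multiset.filter_eq', h1]
  have dt : t = Multiset.replicate q 1 + t.filter (fun a => ¬ a = 1) := by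
    conv_lhs => rw [← Multiset.filter_add_not (fun a => a = 1) t]
    rw [Multiset.filter_eq', h2]
  set s₁ := s.filter (fun a => ¬ a = 1) with hs₁
  set t₁ := t.filter (fun a => ¬ a = 1) with ht₁
  have c1 : s.card = q + 1 + s₁.card := by rw [ds]; simp; ring
  have c2 : t.card = q + t₁.card := by rw [dt]; simp
  have m1 : s.sum = q + 1 + s₁.sum := by rw [ds]; simp; ring
  have m2 : t.sum = q + t₁.sum := by rw [dt]; simp
  have p1 : s.prod = s₁.prod := by rw [ds]; simp
  have p2 : t.prod = t₁.prod := by rw [dt]; simp
  have four : ∀ a ∈ s₁, 4 ≤ a := by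
    intro a ha
    have ha' := Multiset.mem_filter.1 ha
    have ha0 := hs a ha'.1
    by_contra hc
    have hprime : a.Prime := by
      have : a = 2 ∨ a = 3 := by omega
      rcases this with rfl | rfl <;> norm_num
    have b1 := count_prime a hprime s hs (q + 1)
    have b2 := count_prime a hprime t ht (q + 1)
    rw [h1, Nat.choose_self] at b1
    rw [h2, Nat.choose_eq_zero_of_lt (by omega)] at b2
    have b3 : 0 < s.count a := Multiset.count_pos.2 ha'.1
    have b4 : (E (q + 1 + 1) s).count a = (E (q + 1 + 1) t).count a := by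
      rw [show q + 1 + 1 = q + 2 by ring, e]
    omega
  have hsum4 : 4 * s₁.card ≤ s₁.sum := by
    have := Multiset.card_nsmul_le_sum four
    simpa [mul_comm] using this
  have hr : s₁.card ≤ q + 2 := by omega
  -- the product of all parts
  have k1 := count_prod s hs (q + 2) hcs
  have k2 := count_prod t ht (q + 2) hct
  have r1 : 1 ≤ s₁.card := by omega
  have e1 : s.card - (q + 2) = s₁.card - 1 := by omega
  have e2 : t.card - (q + 2) = s₁.card - 1 := by omega
  rw [h1, e1] at k1
  rw [h2, e2] at k2
  have hprod : s.prod = t.prod := by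
    have p3 := prod_E s (q + 1)
    have p4 := prod_E t (q + 1)
    rw [← hcard] at p4
    have p5 : (E (q + 1 + 1) s).prod = (E (q + 1 + 1) t).prod := by
      rw [show q + 1 + 1 = q + 2 by ring, e]
    rw [p3, p4] at p5
    have p6 : 0 < (s.card - 1).choose (q + 1) := Nat.choose_pos (by omega)
    exact Nat.pow_left_injective p6.ne' p5
  rw [e, hprod, k2] at k1
  rcases Nat.lt_or_ge s₁.card 2 with h | h
  · have hs1 : s₁.card = 1 := by omega
    have ht1 : t₁.card = 2 := by omega
    obtain ⟨v, hv⟩ := Multiset.card_eq_one.1 hs1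
    obtain ⟨a, b, hab⟩ := Multiset.card_eq_two.1 ht1
    have ha : a ∈ t₁ := by rw [hab]; simp
    have hb : b ∈ t₁ := by rw [hab]; simp
    have ha2 : 2 ≤ a := by
      have := Multiset.mem_filter.1 ha; have := ht a this.1; omega
    have hb2 : 2 ≤ b := by
      have := Multiset.mem_filter.1 hb; have := ht b this.1; omega
    rw [p1, p2, hv, hab] at hprod
    rw [hsum, m2, hv, hab] at m1
    simp at hprod m1
    nlinarith
  · obtain ⟨d, hd⟩ : ∃ d, s₁.card - 1 = d + 1 := ⟨s₁.card - 2, by omega⟩
    rw [hd, Nat.choose_succ_succ'] at k1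
    have : 0 < q.choose d := Nat.choose_pos (by omega)
    omega

/-- the values `4, 6, 9, 10` -/
theorem inj_j (q n j : ℕ) (hn : q = 0 ∨ n ≤ 5 * q + 12) (hj : j = 4 ∨ j = 6 ∨ j = 9 ∨ j = 10)
    (π π' : n.Partition) (h0 : (E (q + 2) π.parts).count j ≠ 0)
    (e : E (q + 2) π.parts = E (q + 2) π'.parts) : π = π' := by
  rcases Nat.eq_zero_or_pos q with rfl | hq
  · exact E_two_inj n π π' e
  have hn' : n ≤ 5 * q + 12 := by omega
  have hs : ∀ a ∈ π.parts, 0 < a := fun a ha => π.parts_pos ha
  have ht : ∀ a ∈ π'.parts, 0 < a := fun a ha => π'.parts_pos ha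
  have h0' : (E (q + 2) π'.parts).count j ≠ 0 := e ▸ h0
  have hne : E (q + 2) π.parts ≠ 0 := by intro h; rw [h] at h0; simp at h0
  have key : ∀ s : Multiset ℕ, (∀ a ∈ s, 0 < a) → (E (q + 2) s).count j ≠ 0 → q ≤ s.count 1 := by
    intro s hs h
    by_contra hc
    apply h
    rcases hj with rfl | rfl | rfl | rfl
    · have := count_pp 2 (by norm_num) s hs q
      norm_num at this
      rw [this, Nat.choose_eq_zero_of_lt (by omega), Nat.choose_eq_zero_of_lt (k := q) (by omega)]
      simp
    · have := count_pq 2 3 (by norm_num) (by norm_num) (by norm_num) s hs q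
      norm_num at this
      rw [this, Nat.choose_eq_zero_of_lt (by omega), Nat.choose_eq_zero_of_lt (k := q) (by omega)]
      simp
    · have := count_pp 3 (by norm_num) s hs q
      norm_num at this
      rw [this, Nat.choose_eq_zero_of_lt (by omega), Nat.choose_eq_zero_of_lt (k := q) (by omega)]
      simp
    · have := count_pq 2 5 (by norm_num) (by norm_num) (by norm_num) s hs q
      norm_num at this
      rw [this, Nat.choose_eq_zero_of_lt (by omega), Nat.choose_eq_zero_of_lt (k := q) (by omega)]
      simp
  have a1 := key _ hs h0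
  have a2 := key _ ht h0'
  apply Nat.Partition.ext
  rcases eq_or_lt_of_le a1 with b1 | b1 <;> rcases eq_or_lt_of_le a2 with b2 | b2
  · -- both have exactly `q` ones
    have two : ∀ s : Multiset ℕ, (∀ a ∈ s, 0 < a) → ∀ a ∈ s, a = 1 ∨ 2 ≤ a := by
      intro s hs a ha; have := hs a ha; omega
    have z1 : (π.parts.count 1).choose (q + 1) = 0 := Nat.choose_eq_zero_of_lt (by omega)
    have z2 : (π'.parts.count 1).choose (q + 1) = 0 := Nat.choose_eq_zero_of_lt (by omega)
    have o1 : (π.parts.count 1).choose q = 1 := by rw [← b1, Nat.choose_self]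
    have o2 : (π'.parts.count 1).choose q = 1 := by rw [← b2, Nat.choose_self]
    have six1 := count_pq 2 3 (by norm_num) (by norm_num) (by norm_num) _ hs q
    have six2 := count_pq 2 3 (by norm_num) (by norm_num) (by norm_num) _ ht q
    rw [z1, o1, mul_zero, zero_add, mul_one] at six1
    rw [z2, o2, mul_zero, zero_add, mul_one, ← e] at six2
    have fin2 : 2 ∈ π.parts → 2 ∈ π'.parts → π.parts = π'.parts := fun m1 m2 =>
      E_inj_two q 2 (by norm_num) _ _ (two _ hs) (two _ ht) b1.symm b2.symm m1 m2 e
    rcases hj with rfl | rfl | rfl | rfl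
    · have c1 := count_pp 2 (by norm_num) _ hs q
      have c2 := count_pp 2 (by norm_num) _ ht q
      rw [z1, o1, mul_zero, zero_add, mul_one] at c1
      rw [z2, o2, mul_zero, zero_add, mul_one] at c2
      norm_num at c1 c2
      apply fin2
      · apply Multiset.count_pos.1
        by_contra hc
        apply h0; rw [c1, Nat.choose_eq_zero_of_lt (by omega)]
      · apply Multiset.count_pos.1
        by_contra hc
        apply h0'; rw [c2, Nat.choose_eq_zero_of_lt (by omega)]
    · norm_num at six1 six2
      apply fin2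
      · apply Multiset.count_pos.1
        by_contra hc
        apply h0; rw [six1, show π.parts.count 2 = 0 by omega, zero_mul]
      · apply Multiset.count_pos.1
        by_contra hc
        apply h0; rw [six2, show π'.parts.count 2 = 0 by omega, zero_mul]
    · have c1 := count_pp 3 (by norm_num) _ hs q
      have c2 := count_pp 3 (by norm_num) _ ht q
      rw [z1, o1, mul_zero, zero_add, mul_one] at c1
      rw [z2, o2, mul_zero, zero_add, mul_one] at c2
      norm_num at c1 c2
      have t1 : 2 ≤ π.parts.count 3 := by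
        by_contra hc
        apply h0; rw [c1, Nat.choose_eq_zero_of_lt (by omega)]
      have t2 : 2 ≤ π'.parts.count 3 := by
        by_contra hc
        apply h0'; rw [c2, Nat.choose_eq_zero_of_lt (by omega)]
      by_cases m2 : 2 ∈ π.parts
      · apply fin2 m2
        apply Multiset.count_pos.1
        have : 0 < π.parts.count 2 := Multiset.count_pos.2 m2
        have h6 : π.parts.count 2 * π.parts.count 3 = π'.parts.count 2 * π'.parts.count 3 := by
          rw [← six1, ← six2]
        by_contra hc
        rw [show π'.parts.count 2 = 0 by omega, zero_mul] at h6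
        have : 0 < π.parts.count 2 * π.parts.count 3 := Nat.mul_pos this (by omega)
        omega
      · have m2' : 2 ∉ π'.parts := by
          intro m
          have : 0 < π'.parts.count 2 := Multiset.count_pos.2 m
          have h6 : π.parts.count 2 * π.parts.count 3 = π'.parts.count 2 * π'.parts.count 3 := by
            rw [← six1, ← six2]
          rw [Multiset.count_eq_zero_of_notMem m2, zero_mul] at h6
          have : 0 < π'.parts.count 2 * π'.parts.count 3 := Nat.mul_pos this (by omega)
          omega
        refine E_inj_two q 3 (by norm_num) _ _ ?_ ?_ b1.symm b2.symm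
          (Multiset.count_pos.1 (by omega)) (Multiset.count_pos.1 (by omega)) e
        · intro a ha
          have := hs a ha
          have : a ≠ 2 := by rintro rfl; exact m2 ha
          omega
        · intro a ha
          have := ht a ha
          have : a ≠ 2 := by rintro rfl; exact m2' ha
          omega
    · have c1 := count_pq 2 5 (by norm_num) (by norm_num) (by norm_num) _ hs q
      have c2 := count_pq 2 5 (by norm_num) (by norm_num) (by norm_num) _ ht q
      rw [z1, o1, mul_zero, zero_add, mul_one] at c1
      rw [z2, o2, mul_zero, zero_add, mul_one] at c2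
      norm_num at c1 c2
      apply fin2
      · apply Multiset.count_pos.1
        by_contra hc
        apply h0; rw [c1, show π.parts.count 2 = 0 by omega, zero_mul]
      · apply Multiset.count_pos.1
        by_contra hc
        apply h0'; rw [c2, show π'.parts.count 2 = 0 by omega, zero_mul]
  · -- `q` ones and more than `q` ones
    exfalso
    have c : (E (q + 2) π.parts).count 1 = 0 := by
      rw [count_one _ hs]; exact Nat.choose_eq_zero_of_lt (by omega)
    rw [e, count_one _ ht, Nat.choose_eq_zero_iff] at c
    exact no_mixed q π'.parts π.parts ht hs (by omega) b1.symm (by rw [π.parts_sum, π'.parts_sum])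
      (by rw [π'.parts_sum]; exact hn') (e ▸ hne) e.symm
  · exfalso
    have c : (E (q + 2) π'.parts).count 1 = 0 := by
      rw [count_one _ ht]; exact Nat.choose_eq_zero_of_lt (by omega)
    rw [← e, count_one _ hs, Nat.choose_eq_zero_iff] at c
    exact no_mixed q π.parts π'.parts hs ht (by omega) b2.symm (by rw [π.parts_sum, π'.parts_sum])
      (by rw [π.parts_sum]; exact hn') hne e
  · exact E_inj (q + 1) _ _ hs ht (by omega) (by omega) e

/-- `∑ C(m_a, 2)` -/
def A (a n : ℕ) : ℤ := ∑ π : n.Partition, (((π.parts.count a).choose 2 : ℕ) : ℤ)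

/-- `∑ m_a m_b` -/
def B (a b n : ℕ) : ℤ := ∑ π : n.Partition, ((π.parts.count a * π.parts.count b : ℕ) : ℤ)

theorem A_add (a n : ℕ) (ha : 0 < a) : A a (n + a) = A a n + N a n := by
  unfold A N
  rw [sum_cons_part a ha n (fun s => (((s.count a).choose 2 : ℕ) : ℤ)), ← Finset.sum_add_distrib]
  · apply Finset.sum_congr rfl
    intro π _
    rw [Multiset.count_cons_self, Nat.choose_succ_succ']
    simp; ring
  · intro s hs
    rw [Multiset.count_eq_zero_of_notMem hs]
    simp

theorem B_add (a b n : ℕ) (ha : 0 < a) (hab : b ≠ a) : B a b (n + a) = B a b n + N b n := by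
  unfold B N
  rw [sum_cons_part a ha n (fun s => ((s.count a * s.count b : ℕ) : ℤ)), ← Finset.sum_add_distrib]
  · apply Finset.sum_congr rfl
    intro π _
    rw [Multiset.count_cons_self, Multiset.count_cons_of_ne hab]
    push_cast; ring
  · intro s hs
    rw [Multiset.count_eq_zero_of_notMem hs]
    simp

theorem B_comm (a b n : ℕ) : B a b n = B b a n := by
  unfold B
  apply Finset.sum_congr rfl
  intro π _
  rw [mul_comm]

theorem B23_small (n : ℕ) (hn : n < 5) : B 2 3 n = 0 := by
  unfold B
  apply Finset.sum_eq_zero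
  intro π _
  by_contra hne
  have h2 : 2 ∈ π.parts := by
    by_contra h; apply hne; rw [Multiset.count_eq_zero_of_notMem h]; simp
  have h3 : 3 ∈ π.parts := by
    by_contra h; apply hne; rw [Multiset.count_eq_zero_of_notMem h]; simp
  obtain ⟨t, ht⟩ := Multiset.exists_cons_of_mem h2
  rw [ht] at h3
  rcases Multiset.mem_cons.1 h3 with h | h
  · omega
  · obtain ⟨u, hu⟩ := Multiset.exists_cons_of_mem h
    have := π.parts_sum
    rw [ht, hu, Multiset.sum_cons, Multiset.sum_cons] at this
    omega

theorem E_card (s : Multiset ℕ) (hs : ∀ a ∈ s, 0 < a) : E s.card s = {s.prod} := by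
  have h1 : (E s.card s).card = 1 := by rw [card_E, Nat.choose_self]
  obtain ⟨x, hx⟩ := Multiset.card_eq_one.1 h1
  have h2 : s.prod ∈ E s.card s := by
    apply Multiset.count_pos.1
    rw [count_prod s hs s.card le_rfl, Nat.sub_self]; simp
  rw [hx] at h2 ⊢
  rw [Multiset.mem_singleton.1 h2]

/-- For `k ≥ 3` the map `E_k` is not injective: `6, 6, 1` and `9, 2, 2` and `k - 3` further ones. -/
theorem not_inj (k : ℕ) (hk : 3 ≤ k) : ∃ π π' : (k + 10).Partition,
    k ≤ π.parts.card ∧ k ≤ π'.parts.card ∧ E k π.parts = E k π'.parts ∧ π ≠ π' := by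
  obtain ⟨j, rfl⟩ : ∃ j, k = j + 3 := ⟨k - 3, by omega⟩
  let π : (j + 3 + 10).Partition :=
    { parts := Multiset.replicate j 1 + {6, 6, 1}
      parts_pos := by
        intro i hi
        rcases Multiset.mem_add.1 hi with h | h
        · rw [Multiset.eq_of_mem_replicate h]; exact one_pos
        · simp at h; omega
      parts_sum := by simp; try ring }
  let π' : (j + 3 + 10).Partition :=
    { parts := Multiset.replicate j 1 + {9, 2, 2}
      parts_pos := by
        intro i hi
        rcases Multiset.mem_add.1 hi with h | h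
        · rw [Multiset.eq_of_mem_replicate h]; exact one_pos
        · simp at h; omega
      parts_sum := by simp; try ring }
  have c : π.parts.card = j + 3 := by simp [π]
  have c' : π'.parts.card = j + 3 := by simp [π']
  refine ⟨π, π', c.ge, c'.ge, ?_, ?_⟩
  · have e1 := E_card π.parts (fun a ha => π.parts_pos ha)
    have e2 := E_card π'.parts (fun a ha => π'.parts_pos ha)
    rw [c] at e1
    rw [c'] at e2
    rw [e1, e2]
    simp [π, π']
  · intro h
    have := congrArg (fun ρ => ρ.parts.count 9) h
    simp [π, π', Multiset.count_replicate] at this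

/-! ## The five equalities -/

/-- `R_{q+2,j}` on the range where it is known -/
theorem R_pp (q n p : ℕ) (hp : p = 2 ∨ p = 3) (hn : q = 0 ∨ n ≤ 5 * q + 12) :
    R (q + 2) (p * p) n = S (fun s => (s.count (p * p) : ℤ)) (q + 1) n +
      S (fun s => (((s.count p).choose 2 : ℕ) : ℤ)) q n := by
  have hpp : p.Prime := by rcases hp with rfl | rfl <;> norm_num
  rw [R_eq _ _ _ (inj_j q n (p * p) hn (by rcases hp with rfl | rfl <;> norm_num)), S, S,
    ← Finset.sum_add_distrib]
  apply Finset.sum_congr rfl
  intro π _
  rw [count_pp p hpp _ (fun a ha => π.parts_pos ha) q]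
  push_cast; ring

theorem R_pq (q n r : ℕ) (hr : r = 3 ∨ r = 5) (hn : q = 0 ∨ n ≤ 5 * q + 12) :
    R (q + 2) (2 * r) n = S (fun s => (s.count (2 * r) : ℤ)) (q + 1) n +
      S (fun s => ((s.count 2 * s.count r : ℕ) : ℤ)) q n := by
  have hrr : r.Prime := by rcases hr with rfl | rfl <;> norm_num
  rw [R_eq _ _ _ (inj_j q n (2 * r) hn (by rcases hr with rfl | rfl <;> norm_num)), S, S,
    ← Finset.sum_add_distrib]
  apply Finset.sum_congr rfl
  intro π _
  rw [count_pq 2 r (by norm_num) hrr (by omega) _ (fun a ha => π.parts_pos ha) q]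
  push_cast; ring

theorem D_S (ψ χ : Multiset ℕ → ℤ) (hψ : ∀ s, ψ (1 ::ₘ s) = ψ s) (hχ : ∀ s, χ (1 ::ₘ s) = χ s)
    (q n : ℕ) : (fwdDiff 1)^[q + 1] (fun n => S ψ (q + 1) n + S χ q n) n =
      S ψ 0 n + (S χ 0 (n + 1) - S χ 0 n) := by
  rw [D_add]
  have h1 := fwd_S ψ hψ (q + 1) 0
  have h2 := fwd_S χ hχ q 0
  rw [zero_add] at h1 h2
  rw [h1, Function.iterate_succ_apply', h2]
  rfl

theorem S_count (j n : ℕ) : S (fun s => (s.count j : ℤ)) 0 n = N j n := by
  unfold S N; simp

theorem S_A (a n : ℕ) : S (fun s => (((s.count a).choose 2 : ℕ) : ℤ)) 0 n = A a n := by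
  unfold S A; simp

theorem S_B (a b n : ℕ) : S (fun s => ((s.count a * s.count b : ℕ) : ℤ)) 0 n = B a b n := by
  unfold S B; simp

/-- the iterated difference of `R_{q+2, p^2}` -/
theorem D_pp (q n p : ℕ) (hp : p = 2 ∨ p = 3) (hn : q = 0 ∨ n + (q + 1) ≤ 5 * q + 12) :
    (fwdDiff 1)^[q + 1] (R (q + 2) (p * p)) n = N (p * p) n + (A p (n + 1) - A p n) := by
  rw [D_congr (q + 1) (R (q + 2) (p * p)) (fun n => S (fun s => (s.count (p * p) : ℤ)) (q + 1) n +
      S (fun s => (((s.count p).choose 2 : ℕ) : ℤ)) q n) n
      (fun i hi => R_pp q (n + i) p hp (by omega)), D_S, S_count, S_A, S_A]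
  · intro s
    rw [Multiset.count_cons_of_ne (by rcases hp with rfl | rfl <;> norm_num)]
  · intro s
    rw [Multiset.count_cons_of_ne (by rcases hp with rfl | rfl <;> norm_num)]

theorem D_pq (q n r : ℕ) (hr : r = 3 ∨ r = 5) (hn : q = 0 ∨ n + (q + 1) ≤ 5 * q + 12) :
    (fwdDiff 1)^[q + 1] (R (q + 2) (2 * r)) n = N (2 * r) n + (B 2 r (n + 1) - B 2 r n) := by
  rw [D_congr (q + 1) (R (q + 2) (2 * r)) (fun n => S (fun s => (s.count (2 * r) : ℤ)) (q + 1) n +
      S (fun s => ((s.count 2 * s.count r : ℕ) : ℤ)) q n) n
      (fun i hi => R_pq q (n + i) r hr (by omega)), D_S, S_count, S_B, S_B]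
  · intro s
    rw [Multiset.count_cons_of_ne (by rcases hr with rfl | rfl <;> norm_num)]
  · intro s
    rw [Multiset.count_cons_of_ne (by norm_num : (2 : ℕ) ≠ 1),
      Multiset.count_cons_of_ne (by rcases hr with rfl | rfl <;> norm_num)]

/-- `N_j(n - d)`, zero for `n < d` -/
def Nsub (j n d : ℕ) : ℤ := if d ≤ n then N j (n - d) else 0

/-- **MP_46a37f_co, partial.** -/
theorem result :
    -- the sixth equality, for all `k ≥ 2` and all `n`
    (∀ k : ℕ, 2 ≤ k → ∀ p : ℕ, p = 1 ∨ p.Prime → ∀ n : ℕ,
      (fwdDiff 1)^[k - 1] (R k p) n = N p n) ∧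
    -- the other five, for `k = 2` and all `n`, and for all `k ≥ 2` and `n ≤ 4 k + 1`
    (∀ k n : ℕ, 2 ≤ k → (k = 2 ∨ n ≤ 4 * k + 1) →
      (fwdDiff 1)^[k - 1] (fun n => R k 4 n + R k 4 (n + 1)) n = N 2 n + N 4 n + N 4 (n + 1) ∧
      (fwdDiff 1)^[k - 1] (R k 6) n = N 6 n + Nsub 2 n 2 - Nsub 3 n 2 ∧
      (fwdDiff 1)^[k - 1] (fun n => R k 6 n + R k 6 (n + 1)) n = N 3 n + N 6 n + N 6 (n + 1) ∧
      (fwdDiff 1)^[k - 1] (fun n => R k 9 n + R k 9 (n + 1) + R k 9 (n + 2)) n =
        N 3 n + N 9 n + N 9 (n + 1) + N 9 (n + 2) ∧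
      (fwdDiff 1)^[k - 1] (fun n => R k 10 n + R k 10 (n + 1)) n =
        N 5 n + N 10 n + N 10 (n + 1)) ∧
    -- `E_2` is injective on the partitions of `n`
    (∀ (n : ℕ) (π π' : n.Partition), E 2 π.parts = E 2 π'.parts → π = π') ∧
    -- for `k ≥ 3` the map `E_k` is not injective on the partitions of `k + 10` with at least `k` parts
    ∀ k : ℕ, 3 ≤ k → ∃ π π' : (k + 10).Partition,
      k ≤ π.parts.card ∧ k ≤ π'.parts.card ∧ E k π.parts = E k π'.parts ∧ π ≠ π' := by
  refine ⟨?_, ?_, fun n π π' e => E_two_inj n π π' e, not_inj⟩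
  · intro k hk p hp n
    obtain ⟨k, rfl⟩ : ∃ j, k = j + 1 := ⟨k - 1, by omega⟩
    rw [Nat.add_sub_cancel]
    rcases hp with rfl | hp
    · have h1 : R (k + 1) 1 = S (fun _ => 1) (1 + k) := by
        funext n; rw [R_one, S, add_comm 1 k]; simp
      rw [h1, fwd_S _ (fun _ => rfl), S, N]
      simp
    · have h1 : R (k + 1) p = S (fun s => (s.count p : ℤ)) (0 + k) := by
        funext n; rw [R_prime k p n hp, S, zero_add]
      rw [h1, fwd_S _ (fun s => by rw [Multiset.count_cons_of_ne hp.ne_one]), S_count]
  · intro k n hk hkn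
    obtain ⟨q, rfl⟩ : ∃ q, k = q + 2 := ⟨k - 2, by omega⟩
    rw [show q + 2 - 1 = q + 1 by omega]
    have b23 : ∀ n, B 2 3 (n + 2) = B 2 3 n + N 3 n := fun n => B_add 2 3 n two_pos (by norm_num)
    have b32 : ∀ n, B 2 3 (n + 3) = B 2 3 n + N 2 n := fun n => by
      rw [B_comm, B_comm 2 3]; exact B_add 3 2 n three_pos (by norm_num)
    have b25 : ∀ n, B 2 5 (n + 2) = B 2 5 n + N 5 n := fun n => B_add 2 5 n two_pos (by norm_num)
    have a2 : ∀ n, A 2 (n + 2) = A 2 n + N 2 n := fun n => A_add 2 n two_pos
    have a3 : ∀ n, A 3 (n + 3) = A 3 n + N 3 n := fun n => A_add 3 n three_pos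
    have key : B 2 3 (n + 1) - B 2 3 n = Nsub 2 n 2 - Nsub 3 n 2 := by
      rcases Nat.lt_or_ge n 2 with hn | hn
      · rw [Nsub, Nsub, if_neg (by omega), if_neg (by omega), B23_small _ (by omega),
          B23_small _ (by omega)]
      · obtain ⟨m, rfl⟩ : ∃ m, n = m + 2 := ⟨n - 2, by omega⟩
        have e2 := b23 m
        have e3 := b32 m
        rw [Nsub, Nsub, if_pos (by omega), if_pos (by omega), Nat.add_sub_cancel]
        simp only [add_assoc, Nat.reduceAdd] at *
        linarith
    refine ⟨?_, ?_, ?_, ?_, ?_⟩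
    · have x0 := D_pp q n 2 (Or.inl rfl) (by omega)
      have x1 := D_pp q (n + 1) 2 (Or.inl rfl) (by omega)
      simp only [Nat.reduceMul] at x0 x1
      rw [D_add, D_shift, x0, x1]
      have e3 := a2 n
      simp only [add_assoc, Nat.reduceAdd] at *
      linarith
    · have x0 := D_pq q n 3 (Or.inl rfl) (by omega)
      simp only [Nat.reduceMul] at x0
      rw [x0]
      linarith
    · have x0 := D_pq q n 3 (Or.inl rfl) (by omega)
      have x1 := D_pq q (n + 1) 3 (Or.inl rfl) (by omega)
      simp only [Nat.reduceMul] at x0 x1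
      rw [D_add, D_shift, x0, x1]
      have e3 := b23 n
      simp only [add_assoc, Nat.reduceAdd] at *
      linarith
    · have x0 := D_pp q n 3 (Or.inr rfl) (by omega)
      have x1 := D_pp q (n + 1) 3 (Or.inr rfl) (by omega)
      have x2 := D_pp q (n + 2) 3 (Or.inr rfl) (by omega)
      simp only [Nat.reduceMul] at x0 x1 x2
      rw [D_add (q + 1) (fun n => R (q + 2) 9 n + R (q + 2) 9 (n + 1)), D_add, D_shift, D_shift,
        x0, x1, x2]
      have e3 := a3 n
      simp only [add_assoc, Nat.reduceAdd] at *
      linarith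
    · have x0 := D_pq q n 5 (Or.inr rfl) (by omega)
      have x1 := D_pq q (n + 1) 5 (Or.inr rfl) (by omega)
      simp only [Nat.reduceMul] at x0 x1
      rw [D_add, D_shift, x0, x1]
      have e3 := b25 n
      simp only [add_assoc, Nat.reduceAdd] at *
      linarith

end Pool.Agent.Results.MP_46a37f_co.SixEqualities
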